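import Pool.Agent.Q227.FR.Lower

/-!
# MP_9614a6_lc: the worst-case sparse bit-size of Fricke trace polynomials is `Θ(n ^ 4)`

`S n` is the largest total binary size of the nonzero coefficients of the Fricke trace polynomial
of an element of the free group `F(a, b)` of cyclically reduced length `n`. We show
`n ^ 4 / 48 ^ 4 ≤ S n ≤ 384 n ^ 4` for all `n ≥ 54`.

The lower bound is attained by the words `a ^ p b ^ m (a b) ^ m`: after an expansion in Chebyshev
polynomials the coefficients of the monomials whose degree has the right parity turn out to be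
sums of products of three binomial coefficients without cancellation, so `c m ^ 3` of them are
exponentially large in `m`.
-/

set_option autoImplicit false

namespace Pool.Agent.Results.MP_9614a6_lc.QuarticGrowth

open Pool.Agent.Q227.FR

theorem result :
    (∀ w, ∃! f, IsFricke w f) ∧
    (∀ n, 1 ≤ n → (∃ w f, HasCycLen w n ∧ IsFricke w f ∧ bitSize f = S n) ∧
      ∀ w f, HasCycLen w n → IsFricke w f → bitSize f ≤ S n) ∧
    (∀ n, 1 ≤ n → S n ≤ 384 * n ^ 4) ∧
    ∀ n, 54 ≤ n → n ^ 4 ≤ 48 ^ 4 * S n := by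
  have hb : ∀ n, 1 ≤ n → BddAbove {s | ∃ w f, HasCycLen w n ∧ IsFricke w f ∧ bitSize f = s} := by
    intro n hn
    refine ⟨384 * n ^ 4, ?_⟩
    rintro s ⟨w, f, h1, h2, rfl⟩
    exact bitSize_upper hn h1 h2
  have hne : ∀ n, 1 ≤ n →
      {s | ∃ w f, HasCycLen w n ∧ IsFricke w f ∧ bitSize f = s}.Nonempty := by
    intro n _
    obtain ⟨f, hf, _⟩ := exists_fricke (word n 0 0)
    refine ⟨bitSize f, FreeGroup.mk (word n 0 0), f, ⟨word n 0 0, cyc_of_true (word_true _ _ _),
      ?_, IsConj.refl _⟩, hf, rfl⟩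
    rw [word_length]
    omega
  refine ⟨fun w => ?_, fun n hn => ⟨?_, ?_⟩, fun n hn => ?_, fun n hn => ?_⟩
  · obtain ⟨f, hf, _⟩ := exists_fricke w.toWord
    rw [FreeGroup.mk_toWord] at hf
    exact ⟨f, hf, fun g hg => unique hg hf⟩
  · exact Nat.sSup_mem (hne n hn) (hb n hn)
  · intro w f h1 h2
    exact le_csSup (hb n hn) ⟨w, f, h1, h2, rfl⟩
  · refine csSup_le (hne n hn) ?_
    rintro s ⟨w, f, h1, h2, rfl⟩
    exact bitSize_upper hn h1 h2
  · obtain ⟨w, f, h1, h2, h3⟩ := exists_lower hn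
    exact h3.trans (Nat.mul_le_mul_left _ (le_csSup (hb n (by omega)) ⟨w, f, h1, h2, rfl⟩))

end Pool.Agent.Results.MP_9614a6_lc.QuarticGrowth
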